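import Pool.Agent.Q179.RZ.Pos

/-!
# An infinite discrete space with a denumerable remainder but without the remainder `ℕ(∞)`

The model is a symmetric submodel of a generic extension. The notion of forcing adds an infinite
sequence of mutually generic ultrafilters `G j` on the countable Boolean algebra `𝓑` of the
periodic sets of natural numbers (with the periods `2 ^ n`) and, for every natural number `x`, an
infinite set `a x` of mutually generic real numbers. The group consists of the permutations of the
natural numbers that map every member of `𝓑` to a set that differs from a member of `𝓑` by a finite
set; it acts on the algebra (hence on the values of the ultrafilters) and permutes the real numbers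
of the sets `a x`. The filter of subgroups is generated by the subgroups of the permutations that
fix all `x < n` and preserve all residues modulo `2 ^ n`.

In the model let `D` be the set of all `a x`. All subsets of `D` are of the form
`{a x | x ∈ S}` where `S` differs from a member of `𝓑` by a finite set. The sets
`{j | b ∈ G j}`, for `b ∈ 𝓑`, form a base of a compact Hausdorff topology without isolated points
on the set of the natural numbers, and together with the subsets of `D` they give a compact
Hausdorff topology on the union of `D` and the set of the natural numbers, in which `D` is a dense
discrete subspace. If the convergent sequence was a remainder of `D`, then there would be in the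
model a sequence of pairwise almost disjoint infinite subsets of `D`, up to finite sets, and the
symmetries show that there is no such sequence.
-/

set_option autoImplicit false

namespace Pool.Agent.Results.MP_ea9bab_gt.DiscreteRemainder

open Pool.Agent.W868 Pool.Agent.Q211.SY Pool.Agent.Q211.FS Pool.Agent.Q211.AM Pool.Agent.Q211.TP
open Pool.Agent.Q179.RZ

/-- There is a countable transitive model of ZF with an infinite discrete space that has a
Hausdorff compactification with a denumerable remainder, but no Hausdorff compactification whose
remainder is homeomorphic to the convergent sequence `ω + 1`. -/
theorem result : ∃ M : Set ZFSet.{0}, M.Countable ∧ IsZF M ∧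
    ∃ D ∈ M, ¬ FinIn M D ∧ DenRem M D (PM M D) ∧
      ¬ ∃ K ∈ M, ∃ κ ∈ M, IsOm1 M K κ ∧ IsRem M D (PM M D) K κ := by
  obtain ⟨M, at', st, bs, bz, h⟩ := exists_pzm
  exact ⟨M, h.cnt, h.zf, st Set.univ, h.stM _ univ_DZ, h.not_fin, h.denRem, h.no_om1⟩

end Pool.Agent.Results.MP_ea9bab_gt.DiscreteRemainder
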